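import Pool.Agent.Helper53.Sub.Kolm

set_option autoImplicit false

/-!
Block B2 of the generic hyperfiniteness project (MP_bdf835_lc): the engine.
-/

namespace Pool.Agent.Helper53.Sub

open Pool.Agent.Helper44.Sub
open scoped Classical Pointwise

variable {X G : Type} [MeasurableSpace X] [Group G]

/-- All the finite data used by the recursion. -/
structure Setup (A : RAct X G) (J : ℕ → Gpd A) (κ : ℕ → ℕ) (S : ℕ → Finset G) where
  W : ℕ → Finset G
  R : ℕ → Finset G
  T : ℕ → Finset G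
  B : ℕ → Finset G
  E : ℕ → Finset G
  Q : ℕ → Finset G
  τ : (t : ℕ) → Fin (κ t + 1) × Fin (κ (t + 1) + 1) → X → G
  cl : (t : ℕ) → X → Fin (κ t + 1)
  χ : (t : ℕ) → X → G
  W0 : (1 : G) ∈ W 0
  hW : ∀ t, ∀ w ∈ W t, ∀ g ∈ T t, w * g ∈ W (t + 1)
  R1 : ∀ t, (1 : G) ∈ R t
  RW : ∀ t, ∀ w ∈ W t, w ∈ R t
  RSW : ∀ t, ∀ s ∈ S t, ∀ w ∈ W t, s * w ∈ R t
  RB : ∀ t, ∀ b ∈ B t, ∀ b' ∈ B t, b * b'⁻¹ ∈ R (t + 1)
  RBE : ∀ t, ∀ b ∈ B t, ∀ b' ∈ B t, ∀ e ∈ E t, b * b'⁻¹ * e ∈ R (t + 1)
  mτ : ∀ t i, MF (τ t i)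
  hτT : ∀ t i x, τ t i x ∈ T t
  hτJ : ∀ t i x, (J t).rel x (τ t i x)
  hcut : ∀ t x, {i | ∃ r ∈ R t, (J t).rel x r ∧ τ t i x ≠ r * τ t i (A.act x r)}.ncard ≤ κ t
  hQ : ∀ t, ∀ r ∈ R t, ∀ g ∈ T t, ∀ g' ∈ T t, r * (g * g'⁻¹) ∈ Q t
  hE : ∀ t, ∀ a ∈ Q t, ∀ r ∈ R t, ∀ g ∈ T t, a⁻¹ * (r * g) ∈ E t
  mcl : ∀ t, MF (cl t)
  mχ : ∀ t, MF (χ t)
  hχB : ∀ t x, χ t x ∈ B t
  hχJ : ∀ t x, (J t).rel x (χ t x)
  hcoh : ∀ t x, ∀ a ∈ Q t, ∀ a' ∈ Q t, (J t).rel x (a⁻¹ * a') →
    cl t x = cl t (A.act x (a⁻¹ * a')) → χ t x = (a⁻¹ * a') * χ t (A.act x (a⁻¹ * a'))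

theorem exists_setup [Countable G] {A : RAct X G} (J : ℕ → Gpd A) (κ : ℕ → ℕ)
    (S : ℕ → Finset G) (hFA : ∀ t, FA (J t) (κ t + 1)) : Nonempty (Setup A J κ S) := by
  -- one step
  have step : ∀ (t : ℕ) (R : Finset G), ∃ (T Q B : Finset G)
      (τ : Fin (κ t + 1) × Fin (κ (t + 1) + 1) → X → G) (cl : X → Fin (κ t + 1)) (χ : X → G),
      (∀ i, MF (τ i)) ∧ (∀ i x, τ i x ∈ T) ∧ (∀ i x, (J t).rel x (τ i x)) ∧
      (∀ x, {i | ∃ r ∈ R, (J t).rel x r ∧ τ i x ≠ r * τ i (A.act x r)}.ncard ≤ κ t) ∧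
      (∀ r ∈ R, ∀ g ∈ T, ∀ g' ∈ T, r * (g * g'⁻¹) ∈ Q) ∧
      MF cl ∧ MF χ ∧ (∀ x, χ x ∈ B) ∧ (∀ x, (J t).rel x (χ x)) ∧
      (∀ x, ∀ a ∈ Q, ∀ a' ∈ Q, (J t).rel x (a⁻¹ * a') →
        cl x = cl (A.act x (a⁻¹ * a')) → χ x = (a⁻¹ * a') * χ (A.act x (a⁻¹ * a'))) := by
    intro t R
    obtain ⟨T, τ, h1, h2, h3, h4⟩ := kolm (J t) (κ t) (hFA t) ((κ t + 1) * (κ (t + 1) + 1)) R
    obtain ⟨B, cl, χ, c1, c2, c3, c4, c5⟩ := hFA t ((R * (T * T⁻¹))⁻¹ * (R * (T * T⁻¹)))
    refine ⟨T, R * (T * T⁻¹), B, fun i => τ (finProdFinEquiv i), cl, χ, fun i => h1 _,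
      fun i x => h2 _ x, fun i x => h3 _ x, ?_, ?_, c1, c2, c3, c4, ?_⟩
    · intro x
      refine le_trans ?_ (h4 x)
      refine Set.ncard_le_ncard_of_injOn (fun i => finProdFinEquiv i) (fun i hi => hi) ?_
        (Set.toFinite _)
      exact finProdFinEquiv.injective.injOn
    · intro r hr g hg g' hg'
      exact Finset.mul_mem_mul hr (Finset.mul_mem_mul hg (Finset.inv_mem_inv hg'))
    · intro x a ha a' ha' hJ hc
      exact c5 x _ (Finset.mul_mem_mul (Finset.inv_mem_inv ha) ha') hJ hc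
  choose T Q B τ cl χ p1 p2 p3 p4 p5 p6 p7 p8 p9 p10 using step
  -- stages: (W, B, E)
  let Rf : ℕ → Finset G × Finset G × Finset G → Finset G := fun t st =>
    {1} ∪ st.1 ∪ (S t * st.1) ∪ (st.2.1 * st.2.1⁻¹) ∪ (st.2.1 * st.2.1⁻¹ * st.2.2)
  let stg : ℕ → Finset G × Finset G × Finset G := fun t => Nat.rec ({1}, {1}, {1})
    (fun t st => (st.1 * T t (Rf t st), B t (Rf t st),
      (Q t (Rf t st))⁻¹ * (Rf t st * T t (Rf t st)))) t
  have hst : ∀ t, stg (t + 1) = ((stg t).1 * T t (Rf t (stg t)), B t (Rf t (stg t)),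
      (Q t (Rf t (stg t)))⁻¹ * (Rf t (stg t) * T t (Rf t (stg t)))) := fun t => rfl
  refine ⟨{
    W := fun t => (stg t).1
    R := fun t => Rf t (stg t)
    T := fun t => T t (Rf t (stg t))
    B := fun t => B t (Rf t (stg t))
    E := fun t => (Q t (Rf t (stg t)))⁻¹ * (Rf t (stg t) * T t (Rf t (stg t)))
    Q := fun t => Q t (Rf t (stg t))
    τ := fun t => τ t (Rf t (stg t))
    cl := fun t => cl t (Rf t (stg t))
    χ := fun t => χ t (Rf t (stg t))
    W0 := by show (1 : G) ∈ ({1} : Finset G); simp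
    hW := by
      intro t w hw g hg
      show w * g ∈ (stg (t + 1)).1
      rw [hst]; exact Finset.mul_mem_mul hw hg
    R1 := by intro t; simp [Rf]
    RW := by intro t w hw; simp [Rf, hw]
    RSW := by
      intro t s hs w hw
      have := Finset.mul_mem_mul hs hw
      simp only [Rf, Finset.mem_union]
      exact Or.inl (Or.inl (Or.inr this))
    RB := by
      intro t b hb b' hb'
      have := Finset.mul_mem_mul hb (Finset.inv_mem_inv hb')
      simp only [Rf, Finset.mem_union]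
      rw [hst]
      exact Or.inl (Or.inr this)
    RBE := by
      intro t b hb b' hb' e he
      have := Finset.mul_mem_mul (Finset.mul_mem_mul hb (Finset.inv_mem_inv hb')) he
      simp only [Rf, Finset.mem_union]
      rw [hst]
      exact Or.inr this
    mτ := fun t i => p1 _ _ i
    hτT := fun t i x => p2 _ _ i x
    hτJ := fun t i x => p3 _ _ i x
    hcut := fun t x => p4 _ _ x
    hQ := fun t => p5 _ _
    hE := by
      intro t a ha r hr g hg
      exact Finset.mul_mem_mul (Finset.inv_mem_inv ha) (Finset.mul_mem_mul hr hg)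
    mcl := fun t => p6 _ _
    mχ := fun t => p7 _ _
    hχB := fun t x => p8 _ _ x
    hχJ := fun t x => p9 _ _ x
    hcoh := fun t x => p10 _ _ x }⟩

namespace Setup

variable {A : RAct X G} {J : ℕ → Gpd A} {κ : ℕ → ℕ} {S : ℕ → Finset G} (P : Setup A J κ S)

/-- index type of the palette at level `t` -/
abbrev Idx (κ : ℕ → ℕ) (t : ℕ) : Type := Fin (κ t + 1) × Fin (κ (t + 1) + 1)

def Cell (t : ℕ) (x : X) (s : G) : Prop :=
  P.cl t x = P.cl t (A.act x s) ∧ P.χ t x = s * P.χ t (A.act x s)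

def Pres (t : ℕ) (f : X → G) (x : X) : Prop :=
  ∃ s r, P.Cell t x s ∧ r ∈ P.E t ∧ (J t).rel (A.act x s) r ∧
    f (A.act x s) ≠ r * f (A.act (A.act x s) r)

noncomputable def rank (t n : ℕ) (F : ℕ → X → G) (x : X) : ℕ :=
  ((Finset.range n).filter (fun k => P.Pres t (F k) x)).card

noncomputable def color (t n : ℕ) (F : ℕ → X → G) (x : X) : Idx κ t :=
  (P.cl t x, ⟨min (P.rank t n F x) (κ (t + 1)), by omega⟩)

def Z (t : ℕ) (i : Idx κ t) (n : ℕ) (F : ℕ → X → G) (x : X) : Prop :=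
  ∃ s, P.τ t i x = s * P.τ t i (A.act x s) ∧ P.color t n F (A.act x s) = i

noncomputable def idx (t n : ℕ) (F : ℕ → X → G) (x : X) : Idx κ t :=
  sel (0, 0) (Finset.univ.toList) (fun i => P.Z t i n F x)

noncomputable def stp (t n : ℕ) (F : ℕ → X → G) (x : X) : G :=
  P.τ t (P.idx t n F x) x * F n (A.act x (P.τ t (P.idx t n F x) x))

noncomputable def tab : ℕ → ℕ → ℕ → X → G
  | 0, _, _, _ => 1
  | n + 1, k, t, x => if k ≤ n then tab n k t x else P.stp t n (fun k' => tab n k' (t + 1)) x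

noncomputable def fam (t n : ℕ) : X → G := P.tab n n t

theorem tab_stable (m k : ℕ) (h : k ≤ m) : P.tab m k = P.tab k k := by
  induction m with
  | zero => obtain rfl : k = 0 := by omega
            rfl
  | succ m ih =>
    rcases Nat.lt_or_ge m k with h1 | h1
    · obtain rfl : k = m + 1 := by omega
      rfl
    · rw [← ih h1]
      funext t x
      simp [tab, h1]

theorem fam_zero (t : ℕ) (x : X) : P.fam t 0 x = 1 := rfl

theorem rank_congr (t n : ℕ) (F F' : ℕ → X → G) (h : ∀ k < n, F k = F' k) (x : X) :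
    P.rank t n F x = P.rank t n F' x := by
  unfold rank
  congr 1
  apply Finset.filter_congr
  intro k hk
  rw [h k (Finset.mem_range.1 hk)]

theorem color_congr (t n : ℕ) (F F' : ℕ → X → G) (h : ∀ k < n, F k = F' k) (x : X) :
    P.color t n F x = P.color t n F' x := by
  unfold color
  simp only [P.rank_congr t n F F' h x]

theorem idx_congr (t n : ℕ) (F F' : ℕ → X → G) (h : ∀ k < n, F k = F' k) (x : X) :
    P.idx t n F x = P.idx t n F' x := by
  unfold idx Z
  simp only [P.color_congr t n F F' h]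

theorem fam_succ (t n : ℕ) (x : X) :
    P.fam t (n + 1) x = P.stp t n (fun k => P.fam (t + 1) k) x := by
  have h1 : P.fam t (n + 1) x = P.stp t n (fun k' => P.tab n k' (t + 1)) x := by
    simp [fam, tab]
  have h2 : ∀ k ≤ n, P.tab n k (t + 1) = P.fam (t + 1) k := by
    intro k hk
    rw [P.tab_stable n k hk]; rfl
  rw [h1]
  unfold stp
  rw [P.idx_congr t n _ (fun k => P.fam (t + 1) k) (fun k hk => h2 k hk.le) x]
  beta_reduce
  rw [h2 n le_rfl]

/-! ### Cells -/

theorem cell_rel {t : ℕ} {x : X} {s : G} (h : P.Cell t x s) :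
    (J t).rel x s ∧ ∃ b ∈ P.B t, ∃ b' ∈ P.B t, s = b * b'⁻¹ := by
  obtain ⟨_, h2⟩ := h
  have e : s = P.χ t x * (P.χ t (A.act x s))⁻¹ := by rw [h2]; group
  refine ⟨?_, P.χ t x, P.hχB t x, P.χ t (A.act x s), P.hχB t _, e⟩
  have a1 := P.hχJ t x
  have a2 := (J t).inv _ _ (P.hχJ t (A.act x s))
  have e2 : A.act (A.act x s) (P.χ t (A.act x s)) = A.act x (P.χ t x) := by
    rw [A.mul, ← h2]
  rw [e2] at a2
  have := (J t).mul _ _ _ a1 a2
  rwa [← e] at this

theorem cell_refl (t : ℕ) (x : X) : P.Cell t x 1 := by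
  constructor
  · rw [A.one]
  · rw [A.one]; simp

theorem cell_trans {t : ℕ} {x : X} {s s' : G} (h : P.Cell t x s)
    (h' : P.Cell t (A.act x s) s') : P.Cell t x (s * s') := by
  obtain ⟨h1, h2⟩ := h
  obtain ⟨h3, h4⟩ := h'
  constructor
  · rw [h1, h3, A.mul]
  · rw [h2, h4, A.mul, mul_assoc]

theorem cell_symm {t : ℕ} {x : X} {s : G} (h : P.Cell t x s) : P.Cell t (A.act x s) s⁻¹ := by
  obtain ⟨h1, h2⟩ := h
  have e : A.act (A.act x s) s⁻¹ = x := by rw [A.mul]; simp [A.one]
  constructor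
  · rw [e, h1]
  · rw [e, h2]; group

theorem pres_cell {t : ℕ} {x : X} {s : G} (h : P.Cell t x s) (f : X → G)
    (hp : P.Pres t f (A.act x s)) : P.Pres t f x := by
  obtain ⟨s', r, h1, h2, h3, h4⟩ := hp
  refine ⟨s * s', r, P.cell_trans h h1, h2, ?_, ?_⟩
  · rw [← A.mul]; exact h3
  · rw [← A.mul]; exact h4

theorem pres_cell_iff {t : ℕ} {x : X} {s : G} (h : P.Cell t x s) (f : X → G) :
    P.Pres t f (A.act x s) ↔ P.Pres t f x := by
  refine ⟨P.pres_cell h f, fun hp => ?_⟩
  apply P.pres_cell (P.cell_symm h) f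
  rw [A.mul, mul_inv_cancel, A.one]; exact hp

theorem rank_cell {t : ℕ} {x : X} {s : G} (h : P.Cell t x s) (n : ℕ) (F : ℕ → X → G) :
    P.rank t n F (A.act x s) = P.rank t n F x := by
  unfold rank
  congr 1
  apply Finset.filter_congr
  intro k _
  exact P.pres_cell_iff h _

/-! ### The index -/

theorem idx_spec (t n : ℕ) (F : ℕ → X → G) (x : X) : P.Z t (P.idx t n F x) n F x := by
  have := sel_spec ((0, 0) : Idx κ t) (Finset.univ.toList) (fun i => P.Z t i n F x)
    ⟨P.color t n F x, by simp, 1, by rw [A.one]; simp, by rw [A.one]⟩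
  exact this.2

/-- `Z` is invariant along uncut pairs. -/
theorem Z_uncut {t : ℕ} {i : Idx κ t} {n : ℕ} {F : ℕ → X → G} {x : X} {r : G}
    (h : P.τ t i x = r * P.τ t i (A.act x r)) (hz : P.Z t i n F x) :
    P.Z t i n F (A.act x r) := by
  obtain ⟨s, h1, h2⟩ := hz
  have e : A.act (A.act x r) (r⁻¹ * s) = A.act x s := by rw [A.mul]; congr 1; group
  refine ⟨r⁻¹ * s, ?_, ?_⟩
  · rw [e]
    have : P.τ t i (A.act x r) = r⁻¹ * P.τ t i x := by rw [h]; group
    rw [this, h1]; group
  · rw [e]; exact h2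

theorem Z_uncut_iff {t : ℕ} {i : Idx κ t} {n : ℕ} {F : ℕ → X → G} {x : X} {r : G}
    (h : P.τ t i x = r * P.τ t i (A.act x r)) :
    P.Z t i n F x ↔ P.Z t i n F (A.act x r) := by
  refine ⟨P.Z_uncut h, fun hz => ?_⟩
  have h' : P.τ t i (A.act x r) = r⁻¹ * P.τ t i (A.act (A.act x r) r⁻¹) := by
    rw [A.mul, mul_inv_cancel, A.one, h]; group
  have := P.Z_uncut h' hz
  rwa [A.mul, mul_inv_cancel, A.one] at this

/-- If the new map is cut at `(x,r)`, some palette entry of an index present near `x` is cut. -/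
theorem exists_index {t n : ℕ} {F : ℕ → X → G} {x : X} {r : G} (hr : r ∈ P.R t)
    (hJ : (J t).rel x r) (hcut : P.stp t n F x ≠ r * P.stp t n F (A.act x r)) :
    ∃ i, P.τ t i x ≠ r * P.τ t i (A.act x r) ∧
      ∃ a ∈ P.Q t, (J t).rel x a ∧ P.color t n F (A.act x a) = i := by
  have key : ∃ i, P.τ t i x ≠ r * P.τ t i (A.act x r) ∧
      (P.Z t i n F x ∨ P.Z t i n F (A.act x r)) := by
    by_contra hcon
    push Not at hcon
    have hiff : ∀ i, P.Z t i n F x ↔ P.Z t i n F (A.act x r) := by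
      intro i
      by_cases hi : P.τ t i x = r * P.τ t i (A.act x r)
      · exact P.Z_uncut_iff hi
      · have := hcon i hi
        exact ⟨fun h => absurd h this.1, fun h => absurd h this.2⟩
    have hidx : P.idx t n F x = P.idx t n F (A.act x r) := by
      unfold idx
      congr 1
      funext i
      exact propext (hiff i)
    have hz := P.idx_spec t n F x
    have hun : P.τ t (P.idx t n F x) x = r * P.τ t (P.idx t n F x) (A.act x r) := by
      by_contra hne
      exact (hcon _ hne).1 hz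
    apply hcut
    unfold stp
    rw [← hidx]
    have e : A.act (A.act x r) (P.τ t (P.idx t n F x) (A.act x r)) =
        A.act x (P.τ t (P.idx t n F x) x) := by
      rw [A.mul, ← hun]
    rw [e]
    nth_rewrite 1 [hun]
    rw [mul_assoc]
  obtain ⟨i, hi, hz⟩ := key
  refine ⟨i, hi, ?_⟩
  have hcommon : ∀ (y : X) (s : G), P.τ t i y = s * P.τ t i (A.act y s) → (J t).rel y s ∧
      s = P.τ t i y * (P.τ t i (A.act y s))⁻¹ := by
    intro y s hs
    have e : s = P.τ t i y * (P.τ t i (A.act y s))⁻¹ := by rw [hs]; group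
    refine ⟨?_, e⟩
    have a1 := P.hτJ t i y
    have a2 := (J t).inv _ _ (P.hτJ t i (A.act y s))
    have e2 : A.act (A.act y s) (P.τ t i (A.act y s)) = A.act y (P.τ t i y) := by
      rw [A.mul, ← hs]
    rw [e2] at a2
    have := (J t).mul _ _ _ a1 a2
    rwa [← e] at this
  rcases hz with hz | hz
  · obtain ⟨s, h1, h2⟩ := hz
    obtain ⟨h3, h4⟩ := hcommon x s h1
    refine ⟨s, ?_, h3, h2⟩
    have := P.hQ t 1 (P.R1 t) _ (P.hτT t i x) _ (P.hτT t i (A.act x s))
    rw [one_mul, ← h4] at this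
    exact this
  · obtain ⟨s, h1, h2⟩ := hz
    obtain ⟨h3, h4⟩ := hcommon _ s h1
    refine ⟨r * s, ?_, (J t).mul _ _ _ hJ h3, ?_⟩
    · have := P.hQ t r hr _ (P.hτT t i (A.act x r)) _ (P.hτT t i (A.act (A.act x r) s))
      rw [← h4] at this
      exact this
    · rw [← A.mul]; exact h2

/-- The level is present at the point found by `exists_index`. -/
theorem pres_of_cut {t n : ℕ} {F : ℕ → X → G} {x : X} {r a : G} (hr : r ∈ P.R t)
    (hJ : (J t).rel x r) (hcut : P.stp t n F x ≠ r * P.stp t n F (A.act x r))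
    (ha : a ∈ P.Q t) (hJa : (J t).rel x a) : P.Pres t (F n) (A.act x a) := by
  by_contra hcon
  unfold Pres at hcon
  push Not at hcon
  have hc : ∀ e ∈ P.E t, (J t).rel (A.act x a) e →
      F n (A.act x a) = e * F n (A.act (A.act x a) e) := by
    intro e he hJe
    have := hcon 1 e (P.cell_refl t _) he (by rw [A.one]; exact hJe)
    rwa [A.one] at this
  have hJa' : (J t).rel (A.act x a) a⁻¹ := (J t).inv _ _ hJa
  have hback : A.act (A.act x a) a⁻¹ = x := by rw [A.mul, mul_inv_cancel, A.one]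
  -- first
  set g := P.τ t (P.idx t n F x) x with hg
  have h1 := hc (a⁻¹ * (1 * g)) (P.hE t a ha 1 (P.R1 t) g (P.hτT t _ _)) (by
    rw [one_mul]
    apply (J t).mul _ _ _ hJa'
    rw [hback]; exact P.hτJ t _ x)
  have e1 : A.act (A.act x a) (a⁻¹ * (1 * g)) = A.act x g := by rw [A.mul]; congr 1; group
  rw [e1] at h1
  set g' := P.τ t (P.idx t n F (A.act x r)) (A.act x r) with hg'
  have h2 := hc (a⁻¹ * (r * g')) (P.hE t a ha r hr g' (P.hτT t _ _)) (by
    apply (J t).mul _ _ _ hJa'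
    rw [hback]
    exact (J t).mul _ _ _ hJ (P.hτJ t _ _))
  have e2 : A.act (A.act x a) (a⁻¹ * (r * g')) = A.act (A.act x r) g' := by
    rw [A.mul, A.mul]; congr 1; group
  rw [e2] at h2
  apply hcut
  have s1 : P.stp t n F x = g * F n (A.act x g) := rfl
  have s2 : P.stp t n F (A.act x r) = g' * F n (A.act (A.act x r) g') := rfl
  rw [s1, s2]
  have h3 : a⁻¹ * (1 * g) * F n (A.act x g) = a⁻¹ * (r * g') * F n (A.act (A.act x r) g') := by
    rw [← h1, ← h2]
  have h4 : a * (a⁻¹ * (1 * g) * F n (A.act x g)) =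
      a * (a⁻¹ * (r * g') * F n (A.act (A.act x r) g')) := by rw [h3]
  simpa [mul_assoc] using h4

/-- The set of levels `< n` of `fam t` which cut at `x` at the scale `R t`. -/
def cutSet (t n : ℕ) (x : X) : Set ℕ :=
  {k | k < n ∧ ∃ r ∈ P.R t, (J t).rel x r ∧
    P.fam t (k + 1) x ≠ r * P.fam t (k + 1) (A.act x r)}

theorem cutSet_finite (t n : ℕ) (x : X) : (P.cutSet t n x).Finite :=
  (Set.finite_lt_nat n).subset (fun _ hk => hk.1)

/-- number of present levels -/
theorem pres_count (hmono : ∀ t x s, (J t).rel x s → (J (t + 1)).rel x s) (t n : ℕ)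
    (hG : ∀ x, (P.cutSet (t + 1) n x).ncard ≤ κ (t + 1)) (x : X) :
    ((Finset.range (n + 1)).filter (fun k => P.Pres t (P.fam (t + 1) k) x)).card ≤
      κ (t + 1) + 1 := by
  have hsub : ((Finset.range (n + 1)).filter (fun k => P.Pres t (P.fam (t + 1) k) x)) ⊆
      insert 0 ((P.cutSet_finite (t + 1) n x).toFinset.image Nat.succ) := by
    intro k hk
    rw [Finset.mem_filter, Finset.mem_range] at hk
    obtain ⟨hk1, s, r, h1, h2, h3, h4⟩ := hk
    rcases k with _ | j
    · simp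
    · rw [Finset.mem_insert]; right
      rw [Finset.mem_image]
      refine ⟨j, ?_, rfl⟩
      rw [Set.Finite.mem_toFinset]
      refine ⟨by omega, ?_⟩
      obtain ⟨c1, b, hb, b', hb', c2⟩ := P.cell_rel h1
      by_cases hcs : P.fam (t + 1) (j + 1) x = s * P.fam (t + 1) (j + 1) (A.act x s)
      · refine ⟨s * r, ?_, hmono _ _ _ ((J t).mul _ _ _ c1 h3), ?_⟩
        · rw [c2]; exact P.RBE t b hb b' hb' r h2
        · intro hcon
          apply h4
          rw [A.mul]
          rw [hcs, mul_assoc] at hcon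
          exact mul_left_cancel hcon
      · refine ⟨s, ?_, hmono _ _ _ c1, hcs⟩
        rw [c2]; exact P.RB t b hb b' hb'
  refine (Finset.card_le_card hsub).trans ?_
  refine (Finset.card_insert_le _ _).trans ?_
  have := hG x
  rw [Set.ncard_eq_toFinset_card _ (P.cutSet_finite (t + 1) n x)] at this
  have h2 := Finset.card_image_le (s := (P.cutSet_finite (t + 1) n x).toFinset) (f := Nat.succ)
  omega

theorem rank_lt {t n n' : ℕ} (hnn : n < n') {F : ℕ → X → G} {x : X}
    (h : P.Pres t (F n) x) : P.rank t n F x < P.rank t n' F x := by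
  unfold rank
  apply Finset.card_lt_card
  rw [Finset.ssubset_iff_of_subset]
  · exact ⟨n, by simp [hnn, h], by simp⟩
  · intro k hk
    rw [Finset.mem_filter, Finset.mem_range] at hk ⊢
    exact ⟨by omega, hk.2⟩

theorem rank_le (hmono : ∀ t x s, (J t).rel x s → (J (t + 1)).rel x s) {t n : ℕ}
    (hG : ∀ x, (P.cutSet (t + 1) n x).ncard ≤ κ (t + 1)) {x : X} {k : ℕ} (hk : k ≤ n)
    (h : P.Pres t (P.fam (t + 1) k) x) :
    P.rank t k (fun j => P.fam (t + 1) j) x ≤ κ (t + 1) := by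
  have h1 : P.rank t k (fun j => P.fam (t + 1) j) x <
      P.rank t (n + 1) (fun j => P.fam (t + 1) j) x := P.rank_lt (by omega) h
  have h2 := P.pres_count hmono t n hG x
  have h3 : P.rank t (n + 1) (fun j => P.fam (t + 1) j) x =
    ((Finset.range (n + 1)).filter (fun k => P.Pres t (P.fam (t + 1) k) x)).card := rfl
  omega

/-- The main claim. -/
theorem main (hmono : ∀ t x s, (J t).rel x s → (J (t + 1)).rel x s) (n : ℕ) :
    ∀ t x, (P.cutSet t n x).ncard ≤ κ t := by
  induction n with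
  | zero =>
    intro t x
    have : P.cutSet t 0 x = ∅ := by ext k; simp [cutSet]
    rw [this]; simp
  | succ n ih =>
    intro t x
    have hG := ih (t + 1)
    -- choose the index
    have hch : ∀ k, ∃ i : Idx κ t, k ∈ P.cutSet t (n + 1) x →
        (∃ r ∈ P.R t, (J t).rel x r ∧ P.τ t i x ≠ r * P.τ t i (A.act x r)) ∧
        ∃ a ∈ P.Q t, (J t).rel x a ∧
          P.color t k (fun j => P.fam (t + 1) j) (A.act x a) = i ∧
          P.Pres t (P.fam (t + 1) k) (A.act x a) := by
      intro k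
      by_cases hk : k ∈ P.cutSet t (n + 1) x
      · obtain ⟨_, r, hr, hJ, hcut⟩ := hk
        rw [P.fam_succ, P.fam_succ] at hcut
        obtain ⟨i, hi, a, ha, hJa, hc⟩ := P.exists_index hr hJ hcut
        exact ⟨i, fun _ => ⟨⟨r, hr, hJ, hi⟩, a, ha, hJa, hc, P.pres_of_cut hr hJ hcut ha hJa⟩⟩
      · exact ⟨(0, 0), fun h => absurd h hk⟩
    choose i hi using hch
    refine le_trans ?_ (P.hcut t x)
    refine Set.ncard_le_ncard_of_injOn i (fun k hk => (hi k hk).1) ?_ (Set.toFinite _)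
    -- injectivity
    have hlt : ∀ k k', k ∈ P.cutSet t (n + 1) x → k' ∈ P.cutSet t (n + 1) x → k < k' →
        i k ≠ i k' := by
      intro k k' hk hk' hkk heq
      obtain ⟨_, a, ha, hJa, hc, hp⟩ := hi k hk
      obtain ⟨_, a', ha', hJa', hc', hp'⟩ := hi k' hk'
      have hcc : P.color t k (fun j => P.fam (t + 1) j) (A.act x a) =
          P.color t k' (fun j => P.fam (t + 1) j) (A.act x a') := by rw [hc, hc', heq]
      have hback : A.act (A.act x a) a⁻¹ = x := by rw [A.mul, mul_inv_cancel, A.one]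
      have e : A.act (A.act x a) (a⁻¹ * a') = A.act x a' := by rw [A.mul]; congr 1; group
      have hcl : P.cl t (A.act x a) = P.cl t (A.act x a') := congrArg Prod.fst hcc
      have hrk : min (P.rank t k (fun j => P.fam (t + 1) j) (A.act x a)) (κ (t + 1)) =
          min (P.rank t k' (fun j => P.fam (t + 1) j) (A.act x a')) (κ (t + 1)) :=
        congrArg (fun z : Idx κ t => (z.2 : ℕ)) hcc
      have hcell : P.Cell t (A.act x a) (a⁻¹ * a') := by
        refine ⟨by rw [e]; exact hcl, ?_⟩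
        refine P.hcoh t _ a ha a' ha' ?_ (by rw [e]; exact hcl)
        apply (J t).mul _ _ _ ((J t).inv _ _ hJa)
        rw [hback]; exact hJa'
      have hrc := P.rank_cell hcell k' (fun j => P.fam (t + 1) j)
      rw [e] at hrc
      have hp2 : P.Pres t (P.fam (t + 1) k') (A.act x a) := by
        apply P.pres_cell hcell
        rw [e]; exact hp'
      have r1 := P.rank_le hmono hG (x := A.act x a) (k := k) (by have := hk.1; omega) hp
      have r2 := P.rank_le hmono hG (x := A.act x a) (k := k') (by have := hk'.1; omega) hp2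
      have r3 : P.rank t k (fun j => P.fam (t + 1) j) (A.act x a) <
        P.rank t k' (fun j => P.fam (t + 1) j) (A.act x a) := P.rank_lt hkk hp
      rw [hrc] at hrk
      omega
    intro k hk k' hk' heq
    rcases lt_trichotomy k k' with h | h | h
    · exact absurd heq (hlt k k' hk hk' h)
    · exact h
    · exact absurd heq.symm (hlt k' k hk' hk h)

/-- Unfolding of the maps at level 0. -/
theorem unfold_zero (hmono : ∀ t x s, (J t).rel x s → (J (t + 1)).rel x s) (t : ℕ) :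
    ∀ n x, ∃ w ∈ P.W t, (J t).rel x w ∧
      P.fam 0 (t + n) x = w * P.fam t n (A.act x w) := by
  induction t with
  | zero =>
    intro n x
    exact ⟨1, P.W0, (J 0).one x, by rw [A.one, Nat.zero_add, one_mul]⟩
  | succ t ih =>
    intro n x
    obtain ⟨w, hw, hJ, h⟩ := ih (n + 1) x
    rw [P.fam_succ] at h
    have s1 : P.stp t n (fun k => P.fam (t + 1) k) (A.act x w) =
      P.τ t (P.idx t n (fun k => P.fam (t + 1) k) (A.act x w)) (A.act x w) *
      P.fam (t + 1) n (A.act (A.act x w)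
        (P.τ t (P.idx t n (fun k => P.fam (t + 1) k) (A.act x w)) (A.act x w))) := rfl
    rw [s1] at h
    set g := P.τ t (P.idx t n (fun k => P.fam (t + 1) k) (A.act x w)) (A.act x w) with hg
    refine ⟨w * g, P.hW t w hw g (P.hτT t _ _), ?_, ?_⟩
    · exact hmono _ _ _ ((J t).mul _ _ _ hJ (P.hτJ t _ _))
    · have : t + 1 + n = t + (n + 1) := by omega
      rw [this, h, A.mul, mul_assoc]

/-! ### Measurability -/

theorem ms_cell [Countable G] (t : ℕ) (s : G) : MeasurableSet {x | P.Cell t x s} := by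
  have h1 : MeasurableSet {x | P.cl t x = P.cl t (A.act x s)} :=
    ms_dep (mf_act A (P.mcl t) s) (fun x b => P.cl t x = b) (fun b => P.mcl t b)
  have h2 : MeasurableSet {x | P.χ t x = s * P.χ t (A.act x s)} :=
    ms_dep (mf_act A (P.mχ t) s) (fun x b => P.χ t x = s * b) (fun b => P.mχ t _)
  exact h1.inter h2

theorem ms_cut [Countable G] {f : X → G} (hf : MF f) (r : G) :
    MeasurableSet {x | f x ≠ r * f (A.act x r)} := by
  have : MeasurableSet {x | f x = r * f (A.act x r)} :=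
    ms_dep (mf_act A hf r) (fun x b => f x = r * b) (fun b => hf _)
  exact this.compl

theorem ms_pres [Countable G] (t : ℕ) {f : X → G} (hf : MF f) :
    MeasurableSet {x | P.Pres t f x} := by
  have : {x | P.Pres t f x} = ⋃ s, ⋃ r, ({x | P.Cell t x s} ∩ ({x : X | r ∈ P.E t} ∩
      ({x | (J t).rel (A.act x s) r} ∩ {x | f (A.act x s) ≠ r * f (A.act (A.act x s) r)}))) := by
    ext x
    simp only [Pres, Set.mem_iUnion]
    exact Iff.rfl
  rw [this]
  refine MeasurableSet.iUnion fun s => MeasurableSet.iUnion fun r => ?_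
  refine (P.ms_cell t s).inter ((MeasurableSet.const _).inter (?_ : MeasurableSet _))
  exact (ms_act A ((J t).meas r) s).inter
    (ms_act A (P := fun y => f y ≠ r * f (A.act y r)) (ms_cut hf r) s)

theorem mf_rank [Countable G] (t n : ℕ) (F : ℕ → X → G) (hF : ∀ k < n, MF (F k)) :
    MF (P.rank t n F) := by
  intro b
  have : {x | P.rank t n F x = b} = ⋃ s ∈ {s : Finset ℕ | s ⊆ Finset.range n ∧ s.card = b},
      ⋂ k ∈ Finset.range n, {x | P.Pres t (F k) x ↔ k ∈ s} := by
    ext x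
    simp only [Set.mem_iUnion, Set.mem_iInter, exists_prop, Set.mem_ofPred_eq]
    constructor
    · intro hx
      refine ⟨(Finset.range n).filter (fun k => P.Pres t (F k) x),
        ⟨Finset.filter_subset _ _, hx⟩, ?_⟩
      intro k hk
      simp only [Finset.mem_filter, hk, true_and]
    · rintro ⟨s, ⟨hs1, hs2⟩, hs3⟩
      have : (Finset.range n).filter (fun k => P.Pres t (F k) x) = s := by
        ext k
        rw [Finset.mem_filter]
        constructor
        · rintro ⟨h1, h2⟩; exact (hs3 k h1).1 h2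
        · intro h; exact ⟨hs1 h, (hs3 k (hs1 h)).2 h⟩
      unfold rank
      rw [this]; exact hs2
  rw [this]
  refine MeasurableSet.biUnion (Set.to_countable _) fun s _ => ?_
  refine Finset.measurableSet_biInter _ fun k hk => ?_
  have hm := P.ms_pres t (hF k (Finset.mem_range.1 hk))
  by_cases hks : k ∈ s
  · simpa only [hks, iff_true] using hm
  · simp only [hks, iff_false]; exact hm.compl

theorem mf_color [Countable G] (t n : ℕ) (F : ℕ → X → G) (hF : ∀ k < n, MF (F k)) :
    MF (P.color t n F) := by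
  intro b
  have h1 := P.mcl t b.1
  have h2 : MeasurableSet {x | (⟨min (P.rank t n F x) (κ (t + 1)), by omega⟩ :
      Fin (κ (t + 1) + 1)) = b.2} :=
    mf_comp (P.mf_rank t n F hF) (fun m => (⟨min m (κ (t + 1)), by omega⟩ :
      Fin (κ (t + 1) + 1))) b.2
  have : {x | P.color t n F x = b} = {x | P.cl t x = b.1} ∩ {x |
      (⟨min (P.rank t n F x) (κ (t + 1)), by omega⟩ : Fin (κ (t + 1) + 1)) = b.2} := by
    ext x
    exact Prod.ext_iff
  rw [this]; exact h1.inter h2

theorem ms_Z [Countable G] (t : ℕ) (i : Idx κ t) (n : ℕ) (F : ℕ → X → G)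
    (hF : ∀ k < n, MF (F k)) : MeasurableSet {x | P.Z t i n F x} := by
  have : {x | P.Z t i n F x} = ⋃ s, ({x | P.τ t i x = s * P.τ t i (A.act x s)} ∩
      {x | P.color t n F (A.act x s) = i}) := by
    ext x
    simp only [Z, Set.mem_iUnion]
    exact Iff.rfl
  rw [this]
  refine MeasurableSet.iUnion fun s => MeasurableSet.inter ?_ (mf_act A (P.mf_color t n F hF) s i)
  exact ms_dep (mf_act A (P.mτ t i) s) (fun x b => P.τ t i x = s * b) (fun b => P.mτ t i _)

theorem mf_stp [Countable G] (t n : ℕ) (F : ℕ → X → G) (hF : ∀ k ≤ n, MF (F k)) :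
    MF (P.stp t n F) := by
  have hidx : MF (P.idx t n F) :=
    mf_sel _ _ _ (fun i _ => P.ms_Z t i n F (fun k hk => hF k hk.le))
  have hτ : MF (fun x => P.τ t (P.idx t n F x) x) := by
    intro b
    exact ms_dep hidx (fun x i => P.τ t i x = b) (fun i => P.mτ t i b)
  intro b
  refine ms_dep hτ (fun x g => g * F n (A.act x g) = b) (fun g => ?_)
  have := mf_act A (hF n le_rfl) g (g⁻¹ * b)
  have h2 : {x | g * F n (A.act x g) = b} = {x | F n (A.act x g) = g⁻¹ * b} := by
    ext x; simp [eq_inv_mul_iff_mul_eq]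
  rw [h2]; exact this

theorem mf_fam [Countable G] (n : ℕ) : ∀ t, MF (P.fam t n) := by
  induction n using Nat.strong_induction_on with
  | _ n ih =>
    intro t
    rcases n with _ | n
    · exact mf_const 1
    · have : P.fam t (n + 1) = P.stp t n (fun k => P.fam (t + 1) k) := by
        funext x; exact P.fam_succ t n x
      rw [this]
      exact P.mf_stp t n _ (fun k hk => ih k (by omega) _)

end Setup

theorem FA_succ {A : RAct X G} {J : Gpd A} {D : ℕ} (h : FA J D) : FA J (D + 1) := by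
  intro R
  obtain ⟨T, c, χ, h1, h2, h3, h4, h5⟩ := h R
  refine ⟨T, fun x => (c x).castSucc, χ, ?_, h2, h3, h4, ?_⟩
  · intro b
    rcases Fin.eq_castSucc_or_eq_last b with ⟨j, rfl⟩ | rfl
    · have : {x | (c x).castSucc = j.castSucc} = {x | c x = j} := by
        ext x; simp
      rw [this]; exact h1 j
    · have : {x | (c x).castSucc = Fin.last D} = ∅ := by
        ext x
        simp only [Set.mem_ofPred_eq, Set.mem_empty_iff_false, iff_false]
        exact Fin.castSucc_ne_last _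
      rw [this]; exact MeasurableSet.empty
  · intro x r hr hJ hc
    exact h5 x r hr hJ (Fin.castSucc_injective _ hc)

/-- B2 (engine). -/
theorem engine [Countable G] {A : RAct X G} (J : ℕ → Gpd A)
    (hmono : ∀ t x s, (J t).rel x s → (J (t + 1)).rel x s)
    (hFA : ∀ t, ∃ D, FA (J t) D) :
    ∃ w : ℕ → X → G, (∀ m, MF (w m)) ∧ (∀ m, ∃ T : Finset G, ∀ x, w m x ∈ T) ∧
      ∀ x s, (∃ t, (J t).rel x s) → {m | w m x ≠ s * w m (A.act x s)}.Finite := by
  choose κ hκ using hFA
  obtain ⟨f, hf⟩ := exists_surjective_nat G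
  let S : ℕ → Finset G := fun n => (Finset.range (n + 1)).image f
  have hS : ∀ n m, n ≤ m → f n ∈ S m := by
    intro n m h
    exact Finset.mem_image.2 ⟨n, by simp; omega, rfl⟩
  obtain ⟨P⟩ := exists_setup J κ S (fun t => FA_succ (hκ t))
  have hmono' : ∀ t t' x s, t ≤ t' → (J t).rel x s → (J t').rel x s := by
    intro t t' x s h hJ
    induction t', h using Nat.le_induction with
    | base => exact hJ
    | succ t' _ ih => exact hmono _ _ _ ih
  refine ⟨P.fam 0, fun m => P.mf_fam m 0, ?_, ?_⟩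
  · intro m
    refine ⟨P.W m, fun x => ?_⟩
    obtain ⟨w, hw, _, h⟩ := P.unfold_zero hmono m 0 x
    rw [Nat.add_zero, P.fam_zero, mul_one] at h
    rw [h]; exact hw
  · rintro x s ⟨t0, ht0⟩
    obtain ⟨n0, hn0⟩ := hf s
    set t := max t0 n0 with ht
    have hJ : (J t).rel x s := hmono' _ _ _ _ (le_max_left _ _) ht0
    have hsS : s ∈ S t := by rw [← hn0]; exact hS _ _ (le_max_right _ _)
    -- the set of bad levels
    have hfin : {n | ∃ r ∈ P.R t, (J t).rel x r ∧
        P.fam t (n + 1) x ≠ r * P.fam t (n + 1) (A.act x r)}.Finite := by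
      by_contra hinf
      obtain ⟨F, hF1, hF2⟩ := (show Set.Infinite _ from hinf).exists_subset_card_eq (κ t + 1)
      obtain ⟨N, hN⟩ := F.exists_nat_subset_range
      have hsub : (F : Set ℕ) ⊆ P.cutSet t N x := by
        intro k hk
        exact ⟨Finset.mem_range.1 (hN hk), hF1 hk⟩
      have h1 := Set.ncard_le_ncard hsub (P.cutSet_finite t N x)
      rw [Set.ncard_coe_finset, hF2] at h1
      have h2 := P.main hmono N t x
      omega
    refine Set.Finite.subset ((Set.finite_le_nat t).union (hfin.image (fun n => t + (n + 1)))) ?_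
    intro m hm
    by_cases hmt : m ≤ t
    · left; exact hmt
    · right
      obtain ⟨n, rfl⟩ : ∃ n, m = t + (n + 1) := ⟨m - t - 1, by omega⟩
      refine ⟨n, ?_, rfl⟩
      obtain ⟨w, hw, hJw, h⟩ := P.unfold_zero hmono t (n + 1) x
      obtain ⟨w', hw', hJw', h'⟩ := P.unfold_zero hmono t (n + 1) (A.act x s)
      by_contra hcon
      have hcon' : ∀ r ∈ P.R t, (J t).rel x r →
          P.fam t (n + 1) x = r * P.fam t (n + 1) (A.act x r) := by
        intro r hr hJr
        by_contra hne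
        exact hcon ⟨r, hr, hJr, hne⟩
      have e1 := hcon' w (P.RW t w hw) hJw
      have e2 := hcon' (s * w') (P.RSW t s hsS w' hw') ((J t).mul _ _ _ hJ hJw')
      rw [← A.mul, mul_assoc, ← h'] at e2
      rw [← h] at e1
      exact hm (by rw [← e1, e2])

end Pool.Agent.Helper53.Sub
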