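import Pool.Agent.Helper44.Sub.Defs

set_option autoImplicit false

/-!
Block B1 of the generic hyperfiniteness project (MP_bdf835_lc): the Kolmogorov/Ostrand palette.
-/

namespace Pool.Agent.Helper53.Sub

open Pool.Agent.Helper44.Sub
open scoped Classical Pointwise

variable {X G : Type} [MeasurableSpace X] [Group G]

/-! ### Measurability of maps into countable sets -/

theorem mf_const {B : Type} (b : B) : MF (fun _ : X => b) := by
  intro c
  by_cases h : b = c
  · have : {x : X | b = c} = Set.univ := by ext x; simp [h]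
    rw [this]; exact MeasurableSet.univ
  · have : {x : X | b = c} = ∅ := by ext x; simp [h]
    rw [this]; exact MeasurableSet.empty

theorem mf_comp {B C : Type} [Countable B] {f : X → B} (hf : MF f) (g : B → C) :
    MF (fun x => g (f x)) := by
  intro c
  have : {x | g (f x) = c} = ⋃ b ∈ {b | g b = c}, {x | f x = b} := by
    ext x; simp
  rw [this]
  exact MeasurableSet.biUnion (Set.to_countable _) (fun b _ => hf b)

theorem ms_dep {B : Type} [Countable B] {f : X → B} (hf : MF f) (P : X → B → Prop)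
    (hP : ∀ b, MeasurableSet {x | P x b}) : MeasurableSet {x | P x (f x)} := by
  have : {x | P x (f x)} = ⋃ b, ({x | f x = b} ∩ {x | P x b}) := by
    ext x; simp
  rw [this]
  exact MeasurableSet.iUnion (fun b => (hf b).inter (hP b))

theorem mf_act (A : RAct X G) {B : Type} {f : X → B} (hf : MF f) (s : G) :
    MF (fun x => f (A.act x s)) := fun b => (A.meas s) (hf b)

theorem ms_act (A : RAct X G) {P : X → Prop} (hP : MeasurableSet {x | P x}) (s : G) :
    MeasurableSet {x | P (A.act x s)} := (A.meas s) hP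

/-- Selection of the first element of a list satisfying a predicate. -/
noncomputable def sel {ι : Type} (d : ι) : List ι → (ι → Prop) → ι
  | [], _ => d
  | a :: l, p => if p a then a else sel d l p

theorem sel_spec {ι : Type} (d : ι) (l : List ι) (p : ι → Prop) (h : ∃ a ∈ l, p a) :
    sel d l p ∈ l ∧ p (sel d l p) := by
  induction l with
  | nil => obtain ⟨a, ha, _⟩ := h; simp at ha
  | cons a l ih =>
    by_cases hp : p a
    · simp [sel, hp]
    · have h' : ∃ a ∈ l, p a := by
        obtain ⟨b, hb, hb2⟩ := h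
        rcases List.mem_cons.1 hb with rfl | hb'
        · exact absurd hb2 hp
        · exact ⟨b, hb', hb2⟩
      obtain ⟨h1, h2⟩ := ih h'
      have : sel d (a :: l) p = sel d l p := by simp [sel, hp]
      rw [this]
      exact ⟨List.mem_cons_of_mem _ h1, h2⟩

theorem sel_default {ι : Type} (d : ι) (l : List ι) (p : ι → Prop) (h : ¬ ∃ a ∈ l, p a) :
    sel d l p = d := by
  induction l with
  | nil => rfl
  | cons a l ih =>
    have hp : ¬ p a := fun hp => h ⟨a, by simp, hp⟩
    have : sel d (a :: l) p = sel d l p := by simp [sel, hp]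
    rw [this]
    exact ih (fun ⟨b, hb, hb2⟩ => h ⟨b, List.mem_cons_of_mem _ hb, hb2⟩)

theorem mf_sel {ι : Type} (d : ι) (l : List ι) (p : X → ι → Prop)
    (hp : ∀ a ∈ l, MeasurableSet {x | p x a}) : MF (fun x => sel d l (p x)) := by
  induction l with
  | nil => exact mf_const d
  | cons a l ih =>
    intro b
    have ih' := ih (fun a ha => hp a (List.mem_cons_of_mem _ ha)) b
    have ha := hp a (by simp)
    have : {x | sel d (a :: l) (p x) = b} =
        ({x | p x a} ∩ {x : X | a = b}) ∪ ({x | p x a}ᶜ ∩ {x | sel d l (p x) = b}) := by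
      ext x
      by_cases hx : p x a
      · simp [sel, hx]
      · simp [sel, hx]
    rw [this]
    exact (ha.inter (mf_const a b)).union (ha.compl.inter ih')

/-! ### Thickening of a coherent family -/

section plus

variable {A : RAct X G} (J : Gpd A)

/-- chosen element of `R1` leading into `U` -/
noncomputable def rsel (R1 : Finset G) (U : Set X) (x : X) : G :=
  sel 1 R1.toList (fun r => J.rel x r ∧ A.act x r ∈ U)

def Up (R1 : Finset G) (U : Set X) : Set X := {x | ∃ r ∈ R1, J.rel x r ∧ A.act x r ∈ U}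

noncomputable def chp (R1 : Finset G) (U : Set X) (χ : X → G) (x : X) : G :=
  rsel J R1 U x * χ (A.act x (rsel J R1 U x))

theorem rsel_spec (R1 : Finset G) (U : Set X) (x : X) (hx : x ∈ Up J R1 U) :
    rsel J R1 U x ∈ R1 ∧ J.rel x (rsel J R1 U x) ∧ A.act x (rsel J R1 U x) ∈ U := by
  obtain ⟨r, hr, h1, h2⟩ := hx
  have := sel_spec 1 R1.toList (fun r => J.rel x r ∧ A.act x r ∈ U)
    ⟨r, Finset.mem_toList.2 hr, h1, h2⟩
  exact ⟨Finset.mem_toList.1 this.1, this.2⟩

theorem rsel_rel (R1 : Finset G) (U : Set X) (x : X) : J.rel x (rsel J R1 U x) := by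
  by_cases hx : x ∈ Up J R1 U
  · exact (rsel_spec J R1 U x hx).2.1
  · have : rsel J R1 U x = 1 := by
      apply sel_default
      rintro ⟨r, hr, h1, h2⟩
      exact hx ⟨r, Finset.mem_toList.1 hr, h1, h2⟩
    rw [this]; exact J.one x

theorem rsel_mem (R1 : Finset G) (h1 : (1 : G) ∈ R1) (U : Set X) (x : X) :
    rsel J R1 U x ∈ R1 := by
  by_cases hx : x ∈ Up J R1 U
  · exact (rsel_spec J R1 U x hx).1
  · have : rsel J R1 U x = 1 := by
      apply sel_default
      rintro ⟨r, hr, h1, h2⟩
      exact hx ⟨r, Finset.mem_toList.1 hr, h1, h2⟩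
    rw [this]; exact h1

theorem ms_Up (R1 : Finset G) (U : Set X) (hU : MeasurableSet U) :
    MeasurableSet (Up J R1 U) := by
  have : Up J R1 U = ⋃ r ∈ (R1 : Set G), ({x | J.rel x r} ∩ {x | A.act x r ∈ U}) := by
    ext x
    simp only [Up, Set.mem_iUnion, exists_prop, Finset.mem_coe]
    exact Iff.rfl
  rw [this]
  exact MeasurableSet.biUnion R1.countable_toSet
    (fun r _ => (J.meas r).inter (ms_act A (P := fun y => y ∈ U) hU r))

theorem mf_rsel (R1 : Finset G) (U : Set X) (hU : MeasurableSet U) : MF (rsel J R1 U) :=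
  mf_sel 1 R1.toList _ (fun r _ => (J.meas r).inter (ms_act A (P := fun y => y ∈ U) hU r))

theorem mf_chp [Countable G] (R1 : Finset G) (U : Set X) (hU : MeasurableSet U) (χ : X → G)
    (hχ : MF χ) : MF (chp J R1 U χ) := by
  intro b
  exact ms_dep (mf_rsel J R1 U hU) (fun x g => g * χ (A.act x g) = b) (fun g => by
    have := mf_act A hχ g (g⁻¹ * b)
    have h2 : {x | g * χ (A.act x g) = b} = {x | χ (A.act x g) = g⁻¹ * b} := by
      ext x; simp [eq_inv_mul_iff_mul_eq]
    rw [h2]; exact this)

theorem chp_rel (R1 : Finset G) (U : Set X) (χ : X → G) (hχ : ∀ x, J.rel x (χ x)) (x : X) :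
    J.rel x (chp J R1 U χ x) :=
  J.mul _ _ _ (rsel_rel J R1 U x) (hχ _)

theorem chp_mem (R1 T : Finset G) (h1 : (1 : G) ∈ R1) (U : Set X) (χ : X → G)
    (hχ : ∀ x, χ x ∈ T) (x : X) : chp J R1 U χ x ∈ R1 * T :=
  Finset.mul_mem_mul (rsel_mem J R1 h1 U x) (hχ _)

/-- coherence of the thickened family -/
theorem chp_coh (R R1 : Finset G) (hRR : R ⊆ R1) (hinv : ∀ r ∈ R1, r⁻¹ ∈ R1) (U : Set X)
    (χ : X → G)
    (hcoh : ∀ x ∈ U, ∀ q ∈ R1 * R1 * R1, J.rel x q → A.act x q ∈ U → χ x = q * χ (A.act x q))
    (x : X) (hx : x ∈ Up J R1 U) (r : G) (hr : r ∈ R) (hJ : J.rel x r)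
    (hxr : A.act x r ∈ Up J R1 U) :
    chp J R1 U χ x = r * chp J R1 U χ (A.act x r) := by
  obtain ⟨a1, a2, a3⟩ := rsel_spec J R1 U x hx
  obtain ⟨b1, b2, b3⟩ := rsel_spec J R1 U _ hxr
  unfold chp
  set p := rsel J R1 U x with hp
  set q := rsel J R1 U (A.act x r) with hq
  have e1 : A.act (A.act x p) (p⁻¹ * r * q) = A.act (A.act x r) q := by
    rw [A.mul, A.mul]; congr 1; group
  have hrel : J.rel (A.act x p) (p⁻¹ * r * q) := by
    have h1 := J.inv _ _ a2
    have h2 : J.rel x (r * q) := J.mul _ _ _ hJ b2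
    have h3 : A.act (A.act x p) p⁻¹ = x := by rw [A.mul]; simp [A.one]
    have := J.mul (A.act x p) p⁻¹ (r * q) h1 (by rw [h3]; exact h2)
    rwa [← mul_assoc] at this
  have := hcoh (A.act x p) a3 (p⁻¹ * r * q)
    (Finset.mul_mem_mul (Finset.mul_mem_mul (hinv _ a1) (hRR hr)) b1) hrel (by rw [e1]; exact b3)
  rw [e1] at this
  rw [this]
  group

end plus

/-! ### The families -/

theorem fams [Countable G] {A : RAct X G} (J : Gpd A) (κ : ℕ) (h : FA J (κ + 1)) (L : ℕ)
    (hL : κ + 1 ≤ L) : ∀ R : Finset G,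
    ∃ (T : Finset G) (U : Fin L → Set X) (χ : Fin L → X → G),
      (∀ i, MeasurableSet (U i)) ∧ (∀ i, MF (χ i)) ∧ (∀ i x, χ i x ∈ T) ∧
      (∀ i x, J.rel x (χ i x)) ∧
      (∀ i, ∀ x ∈ U i, ∀ r ∈ R, J.rel x r → A.act x r ∈ U i → χ i x = r * χ i (A.act x r)) ∧
      ∀ x, {i | x ∉ U i}.ncard ≤ κ := by
  induction L, hL using Nat.le_induction with
  | base =>
    intro R
    obtain ⟨T, c, χ, h1, h2, h3, h4, h5⟩ := h R
    refine ⟨T, fun i => {x | c x = i}, fun _ => χ, fun i => h1 i, fun _ => h2, fun _ => h3,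
      fun _ => h4, ?_, ?_⟩
    · intro i x hx r hr hJ hxr
      exact h5 x r hr hJ (by rw [Set.mem_ofPred_eq] at hx hxr; rw [hx, hxr])
    · intro x
      have : {i | x ∉ {x | c x = i}} = {c x}ᶜ := by
        ext i; simp [eq_comm]
      rw [this, Set.ncard_compl]
      simp
  | succ L hL ih =>
    intro R
    set R1 : Finset G := R ∪ R⁻¹ ∪ {1} with hR1
    have h1R : (1 : G) ∈ R1 := by simp [hR1]
    have hRR : R ⊆ R1 := by intro r hr; simp [hR1, hr]
    have hinv : ∀ r ∈ R1, r⁻¹ ∈ R1 := by
      intro r hr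
      simp only [hR1, Finset.mem_union, Finset.mem_inv', Finset.mem_singleton] at hr ⊢
      rcases hr with (hr | hr) | hr
      · left; right; simpa using hr
      · left; left; exact hr
      · right; simp [hr]
    obtain ⟨T, U, χ, mU, mχ, hT, hrel, hcoh, hmiss⟩ := ih (R1 * R1 * R1)
    have hUp : ∀ i, U i ⊆ Up J R1 (U i) := by
      intro i x hx
      exact ⟨1, h1R, J.one x, by rw [A.one]; exact hx⟩
    -- the new set
    let Un : Set X := {x | {i | x ∉ Up J R1 (U i)}.ncard = κ}
    let ix : X → Fin L := fun x => sel ⟨0, by omega⟩ (List.finRange L) (fun i => x ∈ Up J R1 (U i))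
    have mUp : ∀ i, MeasurableSet (Up J R1 (U i)) := fun i => ms_Up J R1 _ (mU i)
    have mix : MF ix := mf_sel _ _ _ (fun i _ => mUp i)
    have mUn : MeasurableSet Un := by
      have : Un = ⋃ s ∈ {s : Set (Fin L) | s.ncard = κ},
          ⋂ i, {x | (x ∉ Up J R1 (U i)) ↔ i ∈ s} := by
        ext x
        simp only [Un, Set.mem_ofPred_eq, Set.mem_iUnion, Set.mem_iInter, exists_prop]
        constructor
        · intro hx
          exact ⟨{i | x ∉ Up J R1 (U i)}, hx, fun i => Iff.rfl⟩
        · rintro ⟨s, hs, hs2⟩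
          have : {i | x ∉ Up J R1 (U i)} = s := by ext i; exact hs2 i
          rw [this]; exact hs
      rw [this]
      refine MeasurableSet.biUnion (Set.to_countable _) (fun s _ => MeasurableSet.iInter fun i => ?_)
      by_cases his : i ∈ s
      · simp only [his, iff_true]; exact (mUp i).compl
      · simp only [his, iff_false, not_not]; exact mUp i
    have hsub : ∀ x, {i | x ∉ Up J R1 (U i)} ⊆ {i | x ∉ U i} := fun x i hi hx => hi (hUp i hx)
    have hcard : ∀ x, {i | x ∉ Up J R1 (U i)}.ncard ≤ κ := fun x =>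
      (Set.ncard_le_ncard (hsub x) (Set.toFinite _)).trans (hmiss x)
    have hUn : ∀ x ∈ Un, ∀ i, x ∈ Up J R1 (U i) ↔ x ∈ U i := by
      intro x hx i
      have : {i | x ∉ Up J R1 (U i)} = {i | x ∉ U i} := by
        apply Set.eq_of_subset_of_ncard_le (hsub x) _ (Set.toFinite _)
        have hx' : {i | x ∉ Up J R1 (U i)}.ncard = κ := hx
        rw [hx']; exact hmiss x
      have h2 := Set.ext_iff.1 this i
      simp only [Set.mem_ofPred_eq] at h2
      exact not_iff_not.1 h2
    have hixx : ∀ x ∈ Un, x ∈ U (ix x) := by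
      intro x hx
      have hne : ∃ i ∈ List.finRange L, x ∈ Up J R1 (U i) := by
        by_contra hcon
        have hall : {i | x ∉ Up J R1 (U i)} = Set.univ := by
          ext i
          simp only [Set.mem_ofPred_eq, Set.mem_univ, iff_true]
          intro hi
          exact hcon ⟨i, List.mem_finRange i, hi⟩
        have := hcard x
        rw [hall, Set.ncard_univ, Nat.card_fin] at this
        omega
      have := (sel_spec (⟨0, by omega⟩ : Fin L) _ _ hne).2
      exact (hUn x hx _).1 this
    refine ⟨R1 * T ∪ T, Fin.snoc (fun i => Up J R1 (U i)) Un,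
      Fin.snoc (fun i => chp J R1 (U i) (χ i)) (fun x => χ (ix x) x), ?_, ?_, ?_, ?_, ?_, ?_⟩
    · intro i
      refine Fin.lastCases ?_ (fun j => ?_) i
      · simpa using mUn
      · simpa using mUp j
    · intro i
      refine Fin.lastCases ?_ (fun j => ?_) i
      · simp only [Fin.snoc_last]
        intro b
        exact ms_dep mix (fun x i => χ i x = b) (fun i => mχ i b)
      · simp only [Fin.snoc_castSucc]
        exact mf_chp J R1 _ (mU j) _ (mχ j)
    · intro i x
      refine Fin.lastCases ?_ (fun j => ?_) i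
      · simp only [Fin.snoc_last]
        exact Finset.mem_union_right _ (hT _ _)
      · simp only [Fin.snoc_castSucc]
        exact Finset.mem_union_left _ (chp_mem J R1 T h1R _ _ (hT j) x)
    · intro i x
      refine Fin.lastCases ?_ (fun j => ?_) i
      · simp only [Fin.snoc_last]
        exact hrel _ _
      · simp only [Fin.snoc_castSucc]
        exact chp_rel J R1 _ _ (hrel j) x
    · intro i
      refine Fin.lastCases ?_ (fun j => ?_) i
      · simp only [Fin.snoc_last]
        intro x hx r hr hJ hxr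
        have hiff : ∀ i, x ∈ Up J R1 (U i) ↔ A.act x r ∈ Up J R1 (U i) := by
          intro i
          constructor
          · intro hi
            have hxi := (hUn x hx i).1 hi
            refine ⟨r⁻¹, hinv _ (hRR hr), J.inv _ _ hJ, ?_⟩
            rw [A.mul, mul_inv_cancel, A.one]; exact hxi
          · intro hi
            have hxi := (hUn _ hxr i).1 hi
            exact ⟨r, hRR hr, hJ, hxi⟩
        have hixe : ix x = ix (A.act x r) := by
          show sel _ _ _ = sel _ _ _
          congr 1
          funext i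
          exact propext (hiff i)
        have h1 := hixx x hx
        have h2 := hixx _ hxr
        rw [← hixe] at h2 ⊢
        refine hcoh _ x h1 r ?_ hJ h2
        have : r = 1 * 1 * r := by simp
        rw [this]
        exact Finset.mul_mem_mul (Finset.mul_mem_mul h1R h1R) (hRR hr)
      · simp only [Fin.snoc_castSucc]
        intro x hx r hr hJ hxr
        exact chp_coh J R R1 hRR hinv (U j) (χ j) (fun y hy q hq hJq hyq => hcoh j y hy q hq hJq hyq)
          x hx r hr hJ hxr
    · intro x
      by_cases hx : x ∈ Un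
      · have : {i : Fin (L + 1) | x ∉ (Fin.snoc (fun i => Up J R1 (U i)) Un : Fin (L + 1) → Set X) i} ⊆
            Fin.castSucc '' {i | x ∉ Up J R1 (U i)} := by
          intro i
          refine Fin.lastCases ?_ (fun j => ?_) i
          · intro hi
            simp only [Set.mem_ofPred_eq, Fin.snoc_last] at hi
            exact absurd hx hi
          · intro hi
            simp only [Set.mem_ofPred_eq, Fin.snoc_castSucc] at hi
            exact ⟨j, hi, rfl⟩
        refine (Set.ncard_le_ncard this (Set.toFinite _)).trans ?_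
        refine (Set.ncard_image_le (Set.toFinite _)).trans (hcard x)
      · have : {i : Fin (L + 1) | x ∉ (Fin.snoc (fun i => Up J R1 (U i)) Un : Fin (L + 1) → Set X) i} ⊆
            insert (Fin.last L) (Fin.castSucc '' {i | x ∉ Up J R1 (U i)}) := by
          intro i
          refine Fin.lastCases ?_ (fun j => ?_) i
          · intro _; exact Set.mem_insert _ _
          · intro hi
            simp only [Set.mem_ofPred_eq, Fin.snoc_castSucc] at hi
            exact Set.mem_insert_of_mem _ ⟨j, hi, rfl⟩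
        refine (Set.ncard_le_ncard this (Set.toFinite _)).trans ?_
        refine (Set.ncard_insert_le _ _).trans ?_
        have h1 : (Fin.castSucc '' {i | x ∉ Up J R1 (U i)}).ncard ≤
          {i | x ∉ Up J R1 (U i)}.ncard := Set.ncard_image_le (Set.toFinite _)
        have h2 := hcard x
        have h3 : {i | x ∉ Up J R1 (U i)}.ncard ≠ κ := hx
        omega

/-- B1 (Kolmogorov/Ostrand palette). -/
theorem kolm [Countable G] {A : RAct X G} (J : Gpd A) (κ : ℕ) (h : FA J (κ + 1)) (L : ℕ)
    (R : Finset G) :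
    ∃ (T : Finset G) (τ : Fin L → X → G),
      (∀ i, MF (τ i)) ∧ (∀ i x, τ i x ∈ T) ∧ (∀ i x, J.rel x (τ i x)) ∧
      ∀ x, {i | ∃ r ∈ R, J.rel x r ∧ τ i x ≠ r * τ i (A.act x r)}.ncard ≤ κ := by
  by_cases hL : κ + 1 ≤ L
  · set R1 : Finset G := R ∪ R⁻¹ ∪ {1} with hR1
    have h1R : (1 : G) ∈ R1 := by simp [hR1]
    have hRR : R ⊆ R1 := by intro r hr; simp [hR1, hr]
    have hinv : ∀ r ∈ R1, r⁻¹ ∈ R1 := by
      intro r hr
      simp only [hR1, Finset.mem_union, Finset.mem_inv', Finset.mem_singleton] at hr ⊢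
      rcases hr with (hr | hr) | hr
      · left; right; simpa using hr
      · left; left; exact hr
      · right; simp [hr]
    obtain ⟨T, U, χ, mU, mχ, hT, hrel, hcoh, hmiss⟩ := fams J κ h L hL (R1 * R1 * R1)
    refine ⟨R1 * T, fun i => chp J R1 (U i) (χ i), fun i => mf_chp J R1 _ (mU i) _ (mχ i),
      fun i x => chp_mem J R1 T h1R _ _ (hT i) x, fun i x => chp_rel J R1 _ _ (hrel i) x, ?_⟩
    intro x
    refine (Set.ncard_le_ncard ?_ (Set.toFinite _)).trans (hmiss x)
    rintro i ⟨r, hr, hJ, hcut⟩ hxU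
    apply hcut
    refine chp_coh J R R1 hRR hinv (U i) (χ i)
      (fun y hy q hq hJq hyq => hcoh i y hy q hq hJq hyq) x ?_ r hr hJ ?_
    · exact ⟨1, h1R, J.one x, by rw [A.one]; exact hxU⟩
    · refine ⟨r⁻¹, hinv _ (hRR hr), J.inv _ _ hJ, ?_⟩
      rw [A.mul, mul_inv_cancel, A.one]; exact hxU
  · refine ⟨{1}, fun _ _ => 1, fun _ => mf_const 1, fun _ _ => by simp, fun _ x => J.one x, ?_⟩
    intro x
    refine (Set.ncard_le_ncard (Set.subset_univ _) (Set.toFinite _)).trans ?_
    rw [Set.ncard_univ, Nat.card_fin]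
    omega

end Pool.Agent.Helper53.Sub
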